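import Pool.Agent.H583.ST.D
import Pool.Agent.H583.PD.E

/-!
Families of configurations attached to the labellings of the vertices, and the divergence of the sum.
-/

set_option autoImplicit false

namespace Pool.Agent.H583.ST

open Finset Pool.Agent.T2H20.ABC Pool.Agent.T2H20.AH Pool.Agent.H785R2.ABC Pool.Agent.H583.SF
  Pool.Agent.H583.WT Pool.Agent.H583.AL Pool.Agent.H583.AR Pool.Agent.H583.GD Pool.Agent.H583.PD

variable {m : ℕ} {E : Fin m → Fin m → Prop}

/-- the configuration attached to a labelling -/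
def cf (f : Fin m → Fin m) (t : Fin m → ℤ) (a : Fin m) : ℤ := (m.factorial : ℤ) * t (f a) + (a : ℕ)

/-- the parameters attached to a labelling -/
noncomputable def pm (f : Fin m → Fin m) (z : Fin m) (Y : ℕ) : Finset (Fin m → ℤ) :=
  Fintype.piFinset fun c => if c ∈ (univ.image f).erase (f z) then Icc (1 : ℤ) Y else {0}

lemma pm_card (f : Fin m → Fin m) (z : Fin m) (Y : ℕ) : (pm f z Y).card = Y ^ (cls f - 1) := by
  classical
  unfold pm
  rw [Fintype.card_piFinset]
  have h1 : ∀ c : Fin m, (if c ∈ (univ.image f).erase (f z) then Icc (1 : ℤ) Y else {0}).card =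
      if c ∈ (univ.image f).erase (f z) then Y else 1 := by
    intro c
    split_ifs
    · rw [Int.card_Icc]
      omega
    · rw [card_singleton]
  rw [Finset.prod_congr rfl fun c _ => h1 c, Finset.prod_ite_mem, Finset.univ_inter,
    Finset.prod_const, Finset.card_erase_of_mem (mem_image_of_mem f (mem_univ _))]
  rfl

lemma cf_facts {f : Fin m → Fin m} {z : Fin m} {Y : ℕ} {t : Fin m → ℤ}
    (ht : t ∈ pm f z Y) : t (f z) = 0 ∧ ∀ c, 0 ≤ t c ∧ t c ≤ Y := by
  unfold pm at ht
  rw [Fintype.mem_piFinset] at ht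
  constructor
  · have h := ht (f z)
    rw [if_neg (by simp)] at h
    exact mem_singleton.1 h
  · intro c
    have h := ht c
    split_ifs at h
    · rw [mem_Icc] at h
      omega
    · rw [mem_singleton] at h
      omega

lemma cf_inj (f : Fin m → Fin m) (z : Fin m) (Y : ℕ) : Set.InjOn (cf f) (pm f z Y : Set (Fin m → ℤ)) := by
  intro t ht t' ht' h
  funext c
  rw [Finset.mem_coe] at ht ht'
  unfold pm at ht ht'
  rw [Fintype.mem_piFinset] at ht ht'
  by_cases hc : c ∈ univ.image f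
  · rw [mem_image] at hc
    obtain ⟨a, -, rfl⟩ := hc
    have h1 := congrFun h a
    unfold cf at h1
    have h2 : (m.factorial : ℤ) ≠ 0 := by exact_mod_cast m.factorial_ne_zero
    have h3 : (m.factorial : ℤ) * t (f a) = (m.factorial : ℤ) * t' (f a) := by linarith
    exact mul_left_cancel₀ h2 h3
  · have h1 := ht c
    have h2 := ht' c
    rw [if_neg (fun h => hc (mem_of_mem_erase h)), mem_singleton] at h1 h2
    rw [h1, h2]

lemma cf_ne (f : Fin m → Fin m) (t : Fin m → ℤ) {a b : Fin m} (hab : a ≠ b) : cf f t a ≠ cf f t b := by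
  intro h
  unfold cf at h
  have h1 : (m.factorial : ℤ) * (t (f a) - t (f b)) = ((b : ℕ) : ℤ) - ((a : ℕ) : ℤ) := by linarith
  have h2 : (m : ℤ) ≤ m.factorial := by exact_mod_cast Nat.self_le_factorial m
  have ha := a.2
  have hb := b.2
  have h3 : ((a : ℕ) : ℤ) ≠ ((b : ℕ) : ℤ) := by
    intro h
    exact hab (Fin.ext (by exact_mod_cast h))
  have h4 : ((b : ℕ) : ℤ) - ((a : ℕ) : ℤ) = 0 := by
    apply Int.eq_zero_of_abs_lt_dvd (m := (m.factorial : ℤ)) ⟨_, h1.symm⟩
    rw [abs_lt]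
    constructor
    · have : ((a : ℕ) : ℤ) < m := by exact_mod_cast ha
      have : (0 : ℤ) ≤ ((b : ℕ) : ℤ) := Int.natCast_nonneg _
      linarith
    · have : ((b : ℕ) : ℤ) < m := by exact_mod_cast hb
      have : (0 : ℤ) ≤ ((a : ℕ) : ℤ) := Int.natCast_nonneg _
      linarith
  exact h3 (by linarith)

lemma cf_Cg (hE : Ch E) (hm : 2 ≤ m) {f : Fin m → Fin m} (hf : ¬ Function.Injective f) {z : Fin m}
    (hz : (z : ℕ) = 0) {Y : ℕ} {t : Fin m → ℤ} (ht : t ∈ pm f z Y) : Cg E (cf f t) := by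
  obtain ⟨h0, h1⟩ := cf_facts ht
  refine ⟨?_, ?_, ?_⟩
  · intro i j hij
    apply cf_ne
    intro h
    rw [h] at hij
    exact hE.irr _ hij
  · intro i hi
    have : i = z := Fin.ext (by omega)
    rw [this]
    unfold cf
    rw [h0, hz]
    simp
  · obtain ⟨g, hg⟩ : ∃ g, g = univ.gcd (cf f t) := ⟨_, rfl⟩
    have hgd : ∀ a, g ∣ cf f t a := fun a => by
      rw [hg]
      exact Finset.gcd_dvd (mem_univ a)
    have hex : ∃ a b, f a = f b ∧ a ≠ b := by
      by_contra h
      push Not at h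
      exact hf fun a b hab => h a b hab
    obtain ⟨a, b, hab, hne⟩ := hex
    have h2 : g ∣ ((a : ℕ) : ℤ) - ((b : ℕ) : ℤ) := by
      have h3 := dvd_sub (hgd a) (hgd b)
      unfold cf at h3
      rw [hab] at h3
      have h4 : (m.factorial : ℤ) * t (f b) + ((a : ℕ) : ℤ) - ((m.factorial : ℤ) * t (f b) + ((b : ℕ) : ℤ)) =
        ((a : ℕ) : ℤ) - ((b : ℕ) : ℤ) := by ring
      rwa [h4] at h3
    have h5 : ((a : ℕ) : ℤ) - ((b : ℕ) : ℤ) ∣ (m.factorial : ℤ) := by
      rw [← Int.natAbs_dvd_natAbs, Int.natAbs_natCast]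
      have ha := a.2
      have hb := b.2
      have hne' : (a : ℕ) ≠ b := fun h => hne (Fin.ext h)
      apply Nat.dvd_factorial
      · omega
      · omega
    have h6 : g ∣ 1 := by
      have h7 := hgd ⟨1, by omega⟩
      unfold cf at h7
      have h8 : g ∣ (m.factorial : ℤ) * t (f ⟨1, by omega⟩) := (h2.trans h5).mul_right _
      have h9 := (dvd_add_right h8).1 h7
      simpa using h9
    have h10 := Finset.normalize_gcd (s := univ) (f := cf f t)
    rw [← h10, ← hg]
    exact normalize_eq_one.2 (isUnit_of_dvd_one h6)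

lemma zr_le_real {v : ℤ} (h : v ≠ 0) : (zr v : ℝ) ≤ |(v : ℝ)| := by
  have h1 := zr_le_natAbs h
  have h2 : (v.natAbs : ℝ) = |(v : ℝ)| := by
    rw [Nat.cast_natAbs, Int.cast_abs]
  rw [← h2]
  exact_mod_cast h1

/-- **many configurations** -/
theorem many (hE : Ch E) (hm : 3 ≤ m) (f : Fin m → Fin m) : ∃ c L : ℝ, 0 < c ∧ 1 ≤ L ∧
    ∀ Y : ℕ, 3 ≤ Y → ∃ S : Finset (Fin m → ℤ), c * (Y : ℝ) ^ (cls f - 1) ≤ (S.card : ℝ) ∧
      ∀ x ∈ S, Cg E x ∧ ∀ a b, E a b → (zr (x a - x b) : ℝ) ≤ L * Y ∧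
        (f a = f b → (zr (x a - x b) : ℝ) ≤ L) := by
  classical
  by_cases hf : Function.Injective f
  · obtain ⟨n, rfl⟩ : ∃ n, m = n + 3 := ⟨m - 3, by omega⟩
    have hcls : cls f = n + 3 := by
      unfold cls
      rw [Finset.card_image_of_injective _ hf, Finset.card_univ, Fintype.card_fin]
    refine ⟨1 / 8, (n + 3 : ℕ), by norm_num, by exact_mod_cast (by omega : 1 ≤ n + 3), ?_⟩
    intro Y hY
    refine ⟨(par n Y).image (cfg n Y), ?_, ?_⟩
    · rw [Finset.card_image_of_injective _ (cfg_inj n Y), hcls]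
      have h1 := par_card n hY
      have h2 : n + 3 - 1 = n + 2 := by omega
      rw [h2]
      linarith
    · intro x hx
      rw [mem_image] at hx
      obtain ⟨t, ht, rfl⟩ := hx
      have hC := cfg_Cf ht
      refine ⟨⟨fun i j hij h => ?_, hC.zero, hC.gcd⟩, ?_⟩
      · have := hC.inj h
        rw [this] at hij
        exact hE.irr _ hij
      · intro a b hab
        have hne : a ≠ b := fun h => by
          rw [h] at hab
          exact hE.irr _ hab
        constructor
        · have h1 := cfg_val ht a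
          have h2 := cfg_val ht b
          refine (zr_le_real (df_ne hC hne)).trans ?_
          have h3 : |cfg n Y t a - cfg n Y t b| ≤ ((n + 3) * Y : ℕ) := by
            rw [abs_le]
            constructor <;> omega
          have h4 : ((|cfg n Y t a - cfg n Y t b| : ℤ) : ℝ) ≤ (((n + 3) * Y : ℕ) : ℝ) := by
            exact_mod_cast h3
          rw [Int.cast_abs] at h4
          refine h4.trans_eq ?_
          push_cast
          ring
        · intro h
          exact absurd (hf h) hne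
  · have hm0 : 0 < m := by omega
    obtain ⟨z, hz⟩ : ∃ z : Fin m, (z : ℕ) = 0 := ⟨⟨0, hm0⟩, rfl⟩
    refine ⟨1, (m.factorial : ℝ) + m, one_pos, ?_, ?_⟩
    · have h1 : (1 : ℝ) ≤ m := by exact_mod_cast hm0
      have h2 : (0 : ℝ) ≤ m.factorial := Nat.cast_nonneg _
      linarith
    intro Y hY
    refine ⟨(pm f z Y).image (cf f), ?_, ?_⟩
    · rw [Finset.card_image_of_injOn (cf_inj f z Y), pm_card]
      push_cast
      rw [one_mul]
    · intro x hx
      rw [mem_image] at hx
      obtain ⟨t, ht, rfl⟩ := hx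
      have hC := cf_Cg hE (by omega) hf hz ht
      refine ⟨hC, ?_⟩
      intro a b hab
      obtain ⟨h0, h1⟩ := cf_facts ht
      have hY1 : (1 : ℝ) ≤ Y := by exact_mod_cast (by omega : 1 ≤ Y)
      have ha : ((a : ℕ) : ℝ) ≤ m := by exact_mod_cast a.2.le
      have hb : ((b : ℕ) : ℝ) ≤ m := by exact_mod_cast b.2.le
      have ha0 : (0 : ℝ) ≤ ((a : ℕ) : ℝ) := Nat.cast_nonneg _
      have hb0 : (0 : ℝ) ≤ ((b : ℕ) : ℝ) := Nat.cast_nonneg _
      have hF0 : (0 : ℝ) ≤ m.factorial := Nat.cast_nonneg _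
      have hm' : (0 : ℝ) ≤ m := Nat.cast_nonneg _
      have hval : ((cf f t a - cf f t b : ℤ) : ℝ) =
          (m.factorial : ℝ) * ((t (f a) : ℝ) - t (f b)) + (((a : ℕ) : ℝ) - ((b : ℕ) : ℝ)) := by
        unfold cf
        push_cast
        ring
      constructor
      · refine (zr_le_real (sub_ne_zero.2 (hC.ne a b hab))).trans ?_
        rw [hval]
        have e1 : |(t (f a) : ℝ) - t (f b)| ≤ Y := by
          have c1 : (0 : ℝ) ≤ t (f a) := by exact_mod_cast (h1 (f a)).1
          have c2 : (0 : ℝ) ≤ t (f b) := by exact_mod_cast (h1 (f b)).1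
          have c3 : (t (f a) : ℝ) ≤ Y := by exact_mod_cast (h1 (f a)).2
          have c4 : (t (f b) : ℝ) ≤ Y := by exact_mod_cast (h1 (f b)).2
          rw [abs_le]
          constructor <;> linarith
        have e2 : |((a : ℕ) : ℝ) - ((b : ℕ) : ℝ)| ≤ m := by
          rw [abs_le]
          constructor <;> linarith
        calc _ ≤ |(m.factorial : ℝ) * ((t (f a) : ℝ) - t (f b))| + |((a : ℕ) : ℝ) - ((b : ℕ) : ℝ)| :=
              abs_add_le _ _
          _ ≤ (m.factorial : ℝ) * Y + m * Y := by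
              rw [abs_mul, abs_of_nonneg hF0]
              apply add_le_add
              · exact mul_le_mul_of_nonneg_left e1 hF0
              · nlinarith
          _ = _ := by ring
      · intro h
        refine (zr_le_real (sub_ne_zero.2 (hC.ne a b hab))).trans ?_
        rw [hval, h, sub_self, mul_zero, zero_add, abs_le]
        constructor <;> linarith

/-- **divergence** -/
theorem dvg (hE : Ch E) (hm : 3 ≤ m) (s : Fin m × Fin m → ℝ) (hs : ∀ p ∈ eds E, 0 < s p)
    (f : Fin m → Fin m) (hf : 2 ≤ cls f) (h : ∑ p ∈ crs (eds E) f, s p ≤ (cls f : ℝ) - 1) :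
    ¬ Summable fun x : {x : Fin m → ℤ // Cg E x} => term E s x.1 := by
  classical
  intro hsum
  obtain ⟨c, L, hc, hL, hmany⟩ := many hE hm f
  obtain ⟨c', hc'⟩ : ∃ c' : ℝ, c' = ∏ p ∈ eds E, L ^ (-s p) := ⟨_, rfl⟩
  have hL0 : 0 < L := by linarith
  have hc'0 : 0 < c' := by
    rw [hc']
    exact Finset.prod_pos fun p _ => Real.rpow_pos_of_pos hL0 _
  obtain ⟨s₀, hs₀⟩ := (summable_iff_vanishing_norm.1 hsum) (c * c' / 2) (by positivity)
  obtain ⟨Y, hY⟩ : ∃ Y : ℕ, Y = ⌈2 * (s₀.card : ℝ) / c⌉₊ + 3 := ⟨_, rfl⟩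
  have hY3 : 3 ≤ Y := by omega
  have hY1 : (1 : ℝ) ≤ Y := by exact_mod_cast (by omega : 1 ≤ Y)
  have hY0 : (0 : ℝ) < Y := by linarith
  have hYc : 2 * (s₀.card : ℝ) ≤ c * Y := by
    have h1 : 2 * (s₀.card : ℝ) / c ≤ Y := by
      rw [hY]
      push_cast
      have := Nat.le_ceil (2 * (s₀.card : ℝ) / c)
      linarith
    rw [div_le_iff₀ hc] at h1
    linarith
  obtain ⟨S, hS1, hS2⟩ := hmany Y hY3
  have hterm : ∀ x ∈ S, c' * (Y : ℝ) ^ (-((cls f : ℝ) - 1)) ≤ term E s x := by
    intro x hx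
    obtain ⟨g1, g2⟩ := hS2 x hx
    have h2 : c' * (Y : ℝ) ^ (-∑ p ∈ crs (eds E) f, s p) ≤ term E s x := by
      unfold term crs
      rw [hc', ← Finset.sum_neg_distrib, Real.rpow_sum_of_pos hY0, Finset.prod_filter,
        ← Finset.prod_mul_distrib]
      apply Finset.prod_le_prod
      · intro p _
        apply mul_nonneg (Real.rpow_nonneg hL0.le _)
        split_ifs
        · exact Real.rpow_nonneg hY0.le _
        · exact zero_le_one
      · intro p hp
        have hz : (0 : ℝ) < zr (x p.1 - x p.2) := by exact_mod_cast zr_pos _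
        obtain ⟨k1, k2⟩ := g2 p.1 p.2 (mem_eds.1 hp).2
        split_ifs with hfp
        · rw [← Real.mul_rpow hL0.le hY0.le]
          exact Real.rpow_le_rpow_of_nonpos hz k1 (by linarith [hs p hp])
        · rw [mul_one]
          exact Real.rpow_le_rpow_of_nonpos hz (k2 (not_not.1 hfp)) (by linarith [hs p hp])
    refine le_trans ?_ h2
    apply mul_le_mul_of_nonneg_left _ hc'0.le
    apply Real.rpow_le_rpow_of_exponent_le hY1
    linarith
  obtain ⟨T, hT⟩ : ∃ T, T = (S.subtype fun x => Cg E x) \ s₀ := ⟨_, rfl⟩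
  have hdis : Disjoint T s₀ := by
    rw [hT]
    exact Finset.sdiff_disjoint
  have hcard : (S.card : ℝ) - s₀.card ≤ T.card := by
    have h1 : (S.subtype fun x => Cg E x).card = S.card := by
      rw [Finset.card_subtype, Finset.filter_true_of_mem fun x hx => (hS2 x hx).1]
    have h2 := Finset.le_card_sdiff s₀ (S.subtype fun x => Cg E x)
    rw [h1, ← hT] at h2
    have h3 : S.card ≤ T.card + s₀.card := by omega
    have h4 : (S.card : ℝ) ≤ T.card + s₀.card := by exact_mod_cast h3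
    linarith
  have h3 := hs₀ T hdis
  have h4 : (T.card : ℝ) * (c' * (Y : ℝ) ^ (-((cls f : ℝ) - 1))) ≤ ∑ x ∈ T, term E s x.1 := by
    rw [← nsmul_eq_mul]
    apply Finset.card_nsmul_le_sum
    intro x hx
    apply hterm
    rw [hT, mem_sdiff, mem_subtype] at hx
    exact hx.1
  obtain ⟨k, hk⟩ : ∃ k : ℕ, cls f = k + 2 := ⟨cls f - 2, by omega⟩
  have hkr : (cls f : ℝ) - 1 = ((k + 1 : ℕ) : ℝ) := by
    rw [hk]
    push_cast
    ring
  have hk1 : cls f - 1 = k + 1 := by omega
  rw [hkr, Real.rpow_neg hY0.le, Real.rpow_natCast] at h4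
  rw [hk1] at hS1
  have hYk : (Y : ℝ) ≤ (Y : ℝ) ^ (k + 1) := le_self_pow₀ hY1 (by omega)
  have hYk0 : (0 : ℝ) < (Y : ℝ) ^ (k + 1) := by positivity
  have h5 : c / 2 * (Y : ℝ) ^ (k + 1) ≤ T.card := by
    have h6 : (s₀.card : ℝ) ≤ c / 2 * (Y : ℝ) ^ (k + 1) := by
      have := mul_le_mul_of_nonneg_left hYk hc.le
      linarith
    linarith
  have h6 : c / 2 * (Y : ℝ) ^ (k + 1) * (c' * ((Y : ℝ) ^ (k + 1))⁻¹) ≤ ∑ x ∈ T, term E s x.1 :=
    (mul_le_mul_of_nonneg_right h5 (by positivity)).trans h4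
  have h7 : c / 2 * (Y : ℝ) ^ (k + 1) * (c' * ((Y : ℝ) ^ (k + 1))⁻¹) = c * c' / 2 := by
    field_simp
  rw [h7] at h6
  have h8 := (le_abs_self _).trans_lt (by rwa [Real.norm_eq_abs] at h3)
  linarith

end Pool.Agent.H583.ST
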