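import Pool.Agent.H583.PD.B

/-!
The rational numbers `y` for which two members of the triple `(y, 1, y + 1)` have given radicals, of all
heights.
-/

set_option autoImplicit false

namespace Pool.Agent.H583.ST

open Finset Pool.Agent.T2H20.ABC Pool.Agent.T2H20.AH Pool.Agent.H785R2.ABC Pool.Agent.H583.SF
  Pool.Agent.H583.WT Pool.Agent.H583.AL Pool.Agent.H583.AR Pool.Agent.H583.GD Pool.Agent.H583.PD

/-- large heights -/
theorem exc2 (ε : ℝ) (hε : 0 < ε) : ∃ M : ℕ, ∃ C : ℝ, 1 ≤ M ∧ 0 < C ∧ ∀ X r s : ℕ, 1 ≤ X → 1 ≤ r →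
    r ≤ X → 1 ≤ s → s ≤ X → ∀ Q : Finset ℚ, (∀ y ∈ Q, y ≠ 0 ∧ y ≠ -1 ∧ zr (U y) ≤ X ∧ zr y.den ∣ r ∧
      zr y.num ∣ s ∧ zr (U y) ^ M ≤ Cc y) → (Q.card : ℝ) ≤ C * (X : ℝ) ^ ε := by
  classical
  obtain ⟨M, m, C, hM, hC, h⟩ := fam_exceptions (ε / 3) (by positivity)
  obtain ⟨D, hD, hd⟩ := div_pow m (ε / 3) (by positivity)
  refine ⟨M + 1, 6 * C * D * D, by omega, by positivity, ?_⟩
  intro X r s hX hr hrX hs hsX Q hQ
  have hX1 : (1 : ℝ) ≤ X := by exact_mod_cast hX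
  have hX0 : (0 : ℝ) < X := by linarith
  have hex : ∀ y : ℚ, ∃ (q : ℕ × ℕ) (w : Fin 3 × Bool), y ∈ Q →
      (0 < q.1 ∧ 0 < q.2 ∧ Nat.Coprime q.1 q.2 ∧ rad (q.1 * q.2 * (q.1 + q.2)) = zr (U y) ∧
      (∃ i j : Fin 3, i ≠ j ∧ rad (num (tri q) i) = zr y.den ∧ rad (num (tri q) j) = zr y.num) ∧
      Cc y ≤ 2 * (q.1 + q.2) ∧
      y = ((dec (q, 1, w.1, w.2)).2 : ℚ) / ((dec (q, 1, w.1, w.2)).1 : ℚ)) := by
    intro y
    by_cases hy : y ∈ Q
    · obtain ⟨g1, g2, -⟩ := hQ y hy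
      obtain ⟨q, w, hqw⟩ := code g1 g2
      exact ⟨q, w, fun _ => hqw⟩
    · exact ⟨(0, 0), (0, true), fun h => absurd h hy⟩
  choose T W hTW using hex
  have h1 : Q.card ≤ 6 * (Q.image T).card := by
    apply Finset.card_le_mul_card_image
    intro t ht
    have hsub : (Q.filter fun y => T y = t) ⊆ (Finset.univ : Finset (Fin 3 × Bool)).image
        (fun w => ((dec (t, 1, w.1, w.2)).2 : ℚ) / ((dec (t, 1, w.1, w.2)).1 : ℚ)) := by
      intro y hy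
      rw [mem_filter] at hy
      rw [mem_image]
      refine ⟨W y, mem_univ _, ?_⟩
      rw [← hy.2]
      exact (hTW y hy.1).2.2.2.2.2.2.symm
    refine (card_le_card hsub).trans (Finset.card_image_le.trans ?_)
    simp
  have h2 := h X r s hX hr hs _ _ _ _ _ _ (fml_dvd (r := r) (by omega)) (fml_dvd (r := s) (by omega))
    (Q.image T) (by
    intro t ht
    rw [mem_image] at ht
    obtain ⟨y, hy, rfl⟩ := ht
    obtain ⟨g1, g2, g3, g4, g5, g6⟩ := hQ y hy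
    obtain ⟨a1, a2, a3, a4, ⟨i, j, hij, a5, a6⟩, a7, -⟩ := hTW y hy
    refine ⟨a1, a2, a3, a4.trans_le g3, ⟨i, j, hij, ⟨?_, ?_⟩, ?_, ?_⟩, ?_⟩
    · rw [a5]
      exact Nat.le_of_dvd (by omega) g4
    · rw [a6]
      exact Nat.le_of_dvd (by omega) g5
    · rw [a5]
      exact g4
    · rw [a6]
      exact g5
    · rw [a4]
      rcases Nat.lt_or_ge (zr (U y)) 2 with hX2 | hX2
      · have : zr (U y) ≤ 1 := by omega
        calc zr (U y) ^ M ≤ 1 ^ M := Nat.pow_le_pow_left this M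
          _ = 1 := one_pow _
          _ ≤ _ := by omega
      · have h4 : zr (U y) ^ M * 2 ≤ zr (U y) ^ (M + 1) := by
          rw [pow_succ]
          exact Nat.mul_le_mul_left _ hX2
        omega)
  rw [Real.rpow_zero, Real.rpow_zero, one_mul, Real.sqrt_one, mul_one, mul_pow] at h2
  have h3 := hd X r hr hrX
  have h4 := hd X s hs hsX
  calc (Q.card : ℝ) ≤ ((6 * (Q.image T).card : ℕ) : ℝ) := by exact_mod_cast h1
    _ = 6 * ((Q.image T).card : ℝ) := by push_cast; ring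
    _ ≤ 6 * (C * ((r.divisors.card : ℝ) ^ m * (s.divisors.card : ℝ) ^ m) * (X : ℝ) ^ (ε / 3)) :=
        mul_le_mul_of_nonneg_left h2 (by norm_num)
    _ ≤ 6 * (C * ((D * (X : ℝ) ^ (ε / 3)) * (D * (X : ℝ) ^ (ε / 3))) * (X : ℝ) ^ (ε / 3)) := by
        apply mul_le_mul_of_nonneg_left _ (by norm_num)
        apply mul_le_mul_of_nonneg_right _ (by positivity)
        apply mul_le_mul_of_nonneg_left _ hC.le
        exact mul_le_mul h3 h4 (by positivity) (by positivity)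
    _ = 6 * C * D * D * ((X : ℝ) ^ (ε / 3) * (X : ℝ) ^ (ε / 3) * (X : ℝ) ^ (ε / 3)) := by ring
    _ = 6 * C * D * D * (X : ℝ) ^ ε := by
        rw [← Real.rpow_add hX0, ← Real.rpow_add hX0]
        congr 2
        ring

/-- the integers with a given radical and of moderate size -/
lemma ints_given (M : ℕ) (hM : 1 ≤ M) (ε : ℝ) (hε : 0 < ε) : ∃ C : ℝ, 0 < C ∧ ∀ X r : ℕ, 1 ≤ r → r ≤ X →
    ∀ V : Finset ℤ, (∀ v ∈ V, v ≠ 0 ∧ v.natAbs ≤ X ^ M ∧ zr v ∣ r) → (V.card : ℝ) ≤ C * (X : ℝ) ^ ε := by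
  classical
  have hM0 : (0 : ℝ) < M := by exact_mod_cast hM
  obtain ⟨D, hD, hint⟩ := ints_le (ε / (2 * M)) (by positivity)
  obtain ⟨D₂, hD₂, h2⟩ := two_pow_card 1 (ε / 2) (by positivity)
  refine ⟨D * D₂, by positivity, ?_⟩
  intro X r hr hrX V hV
  have hX : 1 ≤ X := hr.trans hrX
  have hX1 : (1 : ℝ) ≤ X := by exact_mod_cast hX
  have hX0 : (0 : ℝ) < X := by linarith
  have hN : 1 ≤ X ^ M := Nat.one_le_pow _ _ hX
  have hNε : ((X ^ M : ℕ) : ℝ) ^ (ε / (2 * M)) = (X : ℝ) ^ (ε / 2) := by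
    push_cast
    rw [← Real.rpow_natCast, ← Real.rpow_mul hX0.le]
    congr 1
    field_simp
  have hV1 := hint (X ^ M) 1 hN le_rfl r.primeFactors V (by
    intro v hv
    obtain ⟨g1, g2, g3⟩ := hV v hv
    refine ⟨g1, g2, ?_⟩
    unfold zn nr
    rw [Finset.sdiff_eq_empty_iff_subset.2, Finset.prod_empty]
    intro p hp
    have hpp := Nat.prime_of_mem_primeFactors hp
    rw [Nat.mem_primeFactors]
    refine ⟨hpp, ?_, by omega⟩
    refine dvd_trans ?_ g3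
    unfold zr rad
    exact Finset.dvd_prod_of_mem _ hp)
  rw [Nat.cast_one, mul_one, hNε] at hV1
  have hK := h2 X r.primeFactors (fun p hp => Nat.prime_of_mem_primeFactors hp) (by
    exact (Nat.le_of_dvd (by omega) (Nat.prod_primeFactors_dvd r)).trans hrX)
  rw [pow_one] at hK
  calc (V.card : ℝ) ≤ D * 2 ^ r.primeFactors.card * (X : ℝ) ^ (ε / 2) := hV1
    _ ≤ D * (D₂ * (X : ℝ) ^ (ε / 2)) * (X : ℝ) ^ (ε / 2) := by
        apply mul_le_mul_of_nonneg_right _ (by positivity)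
        exact mul_le_mul_of_nonneg_left hK hD.le
    _ = D * D₂ * ((X : ℝ) ^ (ε / 2) * (X : ℝ) ^ (ε / 2)) := by ring
    _ = _ := by
        rw [← Real.rpow_add hX0, add_halves]

/-- **the rational numbers `y` for which two members of the triple `(y, 1, y + 1)` have given
radicals** -/
theorem two (ε : ℝ) (hε : 0 < ε) : ∃ C : ℝ, 0 < C ∧ ∀ X r s : ℕ, 1 ≤ r → r ≤ X → 1 ≤ s → s ≤ X →
    ∀ Q : Finset ℚ, (∀ y ∈ Q, y ≠ 0 ∧ y ≠ -1 ∧ zr (U y) ≤ X ∧ zr y.den ∣ r ∧ zr y.num ∣ s) →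
    (Q.card : ℝ) ≤ C * (X : ℝ) ^ ε := by
  classical
  obtain ⟨M, C₁, hM, hC₁, h₁⟩ := exc2 ε hε
  obtain ⟨C₂, hC₂, h₂⟩ := ints_given M hM (ε / 2) (by positivity)
  refine ⟨C₁ + C₂ * C₂, by positivity, ?_⟩
  intro X r s hr hrX hs hsX Q hQ
  have hX : 1 ≤ X := hr.trans hrX
  have hX0 : (0 : ℝ) < X := by exact_mod_cast hX
  have e1 := h₁ X r s hX hr hrX hs hsX (Q.filter fun y => zr (U y) ^ M ≤ Cc y) (fun y hy => by
    rw [mem_filter] at hy
    obtain ⟨g1, g2, g3, g4, g5⟩ := hQ y hy.1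
    exact ⟨g1, g2, g3, g4, g5, hy.2⟩)
  obtain ⟨P, hP⟩ : ∃ P, P = Q.filter fun y => ¬ zr (U y) ^ M ≤ Cc y := ⟨_, rfl⟩
  have hPm : ∀ y ∈ P, y ≠ 0 ∧ zr y.den ∣ r ∧ zr y.num ∣ s ∧ Cc y ≤ X ^ M := by
    intro y hy
    rw [hP, mem_filter] at hy
    obtain ⟨g1, g2, g3, g4, g5⟩ := hQ y hy.1
    have h3 : zr (U y) ^ M ≤ X ^ M := Nat.pow_le_pow_left g3 M
    exact ⟨g1, g4, g5, by omega⟩
  have hV1 := h₂ X r hr hrX (P.image fun y => (y.den : ℤ)) (by
    intro v hv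
    rw [mem_image] at hv
    obtain ⟨y, hy, rfl⟩ := hv
    obtain ⟨g1, g2, g3, g4⟩ := hPm y hy
    refine ⟨den_ne y, ?_, g2⟩
    rw [Int.natAbs_natCast]
    exact le_trans ((le_max_right _ _).trans (le_max_left _ _)) g4)
  have hV2 := h₂ X s hs hsX (P.image fun y => y.num) (by
    intro v hv
    rw [mem_image] at hv
    obtain ⟨y, hy, rfl⟩ := hv
    obtain ⟨g1, g2, g3, g4⟩ := hPm y hy
    exact ⟨Rat.num_ne_zero.2 g1, le_trans ((le_max_left _ _).trans (le_max_left _ _)) g4, g3⟩)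
  have hc : P.card ≤ (P.image fun y => (y.den : ℤ)).card * (P.image fun y => y.num).card := by
    rw [← Finset.card_product]
    apply Finset.card_le_card_of_injOn (fun y => ((y.den : ℤ), y.num))
    · intro y hy
      rw [Finset.mem_coe, mem_product]
      exact ⟨mem_image_of_mem _ hy, mem_image_of_mem _ hy⟩
    · intro y _ z _ hyz
      simp only [Prod.mk.injEq, Nat.cast_inj] at hyz
      exact Rat.ext hyz.2 hyz.1
  have e2 : (P.card : ℝ) ≤ C₂ * C₂ * (X : ℝ) ^ ε := by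
    calc (P.card : ℝ) ≤ (((P.image fun y => (y.den : ℤ)).card * (P.image fun y => y.num).card : ℕ) : ℝ) := by
          exact_mod_cast hc
      _ = ((P.image fun y => (y.den : ℤ)).card : ℝ) * ((P.image fun y => y.num).card : ℝ) := by
          push_cast; ring
      _ ≤ (C₂ * (X : ℝ) ^ (ε / 2)) * (C₂ * (X : ℝ) ^ (ε / 2)) :=
          mul_le_mul hV1 hV2 (Nat.cast_nonneg _) (by positivity)
      _ = C₂ * C₂ * ((X : ℝ) ^ (ε / 2) * (X : ℝ) ^ (ε / 2)) := by ring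
      _ = _ := by
          rw [← Real.rpow_add hX0, add_halves]
  have e3 : (Q.card : ℝ) = ((Q.filter fun y => zr (U y) ^ M ≤ Cc y).card : ℝ) + (P.card : ℝ) := by
    rw [hP, ← Nat.cast_add, Finset.card_filter_add_card_filter_not]
  rw [e3, add_mul]
  exact add_le_add e1 e2

end Pool.Agent.H583.ST
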