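import Pool.Agent.H583.ST.A

/-!
Two combinatorial lemmas on graphs: a connected set of edges of small weight, and sets of edges of a
chordal graph closed under triangles.
-/

set_option autoImplicit false

namespace Pool.Agent.H583.ST

open Finset

variable {m : ℕ}

/-- a numbering of a graph by successive vertices such that each one after the first two is joined to at
least two of the preceding ones, and those it is joined to are joined to one another -/
structure Ch (E : Fin m → Fin m → Prop) : Prop where
  symm : ∀ i j, E i j → E j i
  irr : ∀ i, ¬ E i i
  edge : ∀ i j : Fin m, (i : ℕ) = 0 → (j : ℕ) = 1 → E i j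
  two : ∀ k : Fin m, 2 ≤ (k : ℕ) → ∃ i j, i < k ∧ j < k ∧ i ≠ j ∧ E i k ∧ E j k
  clq : ∀ i j k, i < k → j < k → i ≠ j → E i k → E j k → E i j

/-- every labelling constant on the classes of a labelling and on the edges of a set is constant -/
def Con (f : Fin m → Fin m) (B : Finset (Fin m × Fin m)) : Prop :=
  ∀ g : Fin m → Fin m, (∀ a b, f a = f b → g a = g b) → (∀ p ∈ B, g p.1 = g p.2) → ∀ a b, g a = g b

/-- the number of classes of a labelling -/
def cls (f : Fin m → Fin m) : ℕ := (univ.image f).card

/-- the edges between different classes of a labelling -/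
def crs (Ed : Finset (Fin m × Fin m)) (f : Fin m → Fin m) : Finset (Fin m × Fin m) :=
  Ed.filter fun p => f p.1 ≠ f p.2

/-- **a connected set of edges of small weight** -/
theorem greedy {Ed : Finset (Fin m × Fin m)} {s : Fin m × Fin m → ℝ} (hs : ∀ p ∈ Ed, 0 < s p) {δ : ℝ}
    (hδ : 0 ≤ δ) (H : ∀ f : Fin m → Fin m, 2 ≤ cls f → (1 + δ) * ((cls f : ℝ) - 1) ≤ ∑ p ∈ crs Ed f, s p) :
    ∀ n : ℕ, ∀ f : Fin m → Fin m, cls f = n + 1 → ∀ u : Fin m × Fin m → ℝ, (∀ p ∈ crs Ed f, 0 ≤ u p) →
      ∃ B ⊆ crs Ed f, Con f B ∧ B.card ≤ n ∧
        (1 + δ) * ∑ p ∈ B, u p ≤ ∑ p ∈ crs Ed f, s p * u p := by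
  intro n
  induction n with
  | zero =>
    intro f hf u hu
    refine ⟨∅, empty_subset _, ?_, by simp, ?_⟩
    · intro g hg _ a b
      apply hg
      unfold cls at hf
      rw [zero_add, Finset.card_eq_one] at hf
      obtain ⟨z, hz⟩ := hf
      have h1 : ∀ v, f v = z := by
        intro v
        have := mem_image_of_mem f (mem_univ v)
        rw [hz, mem_singleton] at this
        exact this
      rw [h1, h1]
    · rw [sum_empty, mul_zero]
      apply Finset.sum_nonneg
      intro p hp
      have hp' : p ∈ Ed := (mem_filter.1 hp).1
      exact mul_nonneg (hs p hp').le (hu p hp)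
  | succ n ih =>
    intro f hf u hu
    have hH := H f (by omega)
    rw [hf] at hH
    have hne : (crs Ed f).Nonempty := by
      rw [Finset.nonempty_iff_ne_empty]
      intro h0
      rw [h0, sum_empty] at hH
      push_cast at hH
      nlinarith [Nat.cast_nonneg (α := ℝ) n]
    obtain ⟨e, he, hmin⟩ := Finset.exists_min_image (crs Ed f) u hne
    have he' : e ∈ Ed ∧ f e.1 ≠ f e.2 := mem_filter.1 he
    set f' : Fin m → Fin m := fun v => if f v = f e.2 then f e.1 else f v with hf'
    have hcls : cls f' = n + 1 := by
      have h1 : univ.image f' = (univ.image f).erase (f e.2) := by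
        ext z
        rw [mem_image, mem_erase, mem_image]
        constructor
        · rintro ⟨v, -, hv⟩
          rw [hf'] at hv
          dsimp only at hv
          split_ifs at hv with h
          · refine ⟨?_, e.1, mem_univ _, hv⟩
            rw [← hv]
            exact he'.2
          · refine ⟨?_, v, mem_univ _, hv⟩
            rw [← hv]
            exact h
        · rintro ⟨h1, v, -, hv⟩
          refine ⟨v, mem_univ _, ?_⟩
          rw [hf']
          dsimp only
          rw [if_neg, hv]
          rw [hv]
          exact h1
      unfold cls at hf ⊢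
      rw [h1, Finset.card_erase_of_mem (mem_image_of_mem f (mem_univ _)), hf]
      rfl
    have hfe : ∀ a b, f a = f b → f' a = f' b := by
      intro a b hab
      rw [hf']
      dsimp only
      rw [hab]
    have hsub : crs Ed f' ⊆ crs Ed f := by
      intro p hp
      unfold crs at hp ⊢
      rw [mem_filter] at hp ⊢
      exact ⟨hp.1, fun h => hp.2 (hfe _ _ h)⟩
    have he12 : f' e.1 = f' e.2 := by
      rw [hf']
      dsimp only
      rw [if_neg he'.2, if_pos rfl]
    have hu0 : 0 ≤ u e := hu e he
    obtain ⟨B, hB1, hB2, hB3, hB4⟩ := ih f' hcls (fun p => u p - u e) (fun p hp => by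
      have := hmin p (hsub hp)
      linarith)
    have heB : e ∉ B := by
      intro h
      have := hB1 h
      unfold crs at this
      rw [mem_filter] at this
      exact this.2 he12
    refine ⟨insert e B, ?_, ?_, ?_, ?_⟩
    · rw [insert_subset_iff]
      exact ⟨he, hB1.trans hsub⟩
    · intro g hg1 hg2
      have g12 := hg2 e (mem_insert_self _ _)
      apply hB2 g _ (fun p hp => hg2 p (mem_insert_of_mem hp))
      intro a b hab
      rw [hf'] at hab
      dsimp only at hab
      split_ifs at hab with h1 h2 h2
      · exact hg1 a b (h1.trans h2.symm)
      · rw [hg1 a e.2 h1, ← g12]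
        exact hg1 _ _ hab
      · rw [hg1 b e.2 h2, ← g12]
        exact hg1 _ _ hab
      · exact hg1 a b hab
    · rw [card_insert_of_notMem heB]
      omega
    · rw [sum_insert heB]
      rw [Finset.sum_sub_distrib, Finset.sum_const, nsmul_eq_mul] at hB4
      have h1 : ∑ p ∈ crs Ed f', s p * (u p - u e) ≤ ∑ p ∈ crs Ed f, s p * (u p - u e) := by
        apply Finset.sum_le_sum_of_subset_of_nonneg hsub
        intro p hp _
        have hp' : p ∈ Ed := (mem_filter.1 hp).1
        exact mul_nonneg (hs p hp').le (by have := hmin p hp; linarith)
      have h2 : ∑ p ∈ crs Ed f, s p * (u p - u e) =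
          ∑ p ∈ crs Ed f, s p * u p - u e * ∑ p ∈ crs Ed f, s p := by
        rw [Finset.mul_sum, ← Finset.sum_sub_distrib]
        apply Finset.sum_congr rfl
        intro p _
        ring
      have h3 : (B.card : ℝ) ≤ n := by exact_mod_cast hB3
      have h4 : u e * ((1 + δ) * (((n + 1 + 1 : ℕ) : ℝ) - 1)) ≤ u e * ∑ p ∈ crs Ed f, s p :=
        mul_le_mul_of_nonneg_left hH hu0
      have h5 : (1 + δ) * (u e * B.card) ≤ (1 + δ) * (u e * n) := by
        apply mul_le_mul_of_nonneg_left _ (by linarith)
        exact mul_le_mul_of_nonneg_left h3 hu0
      push_cast at h4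
      nlinarith

/-- **a connected set of edges of a chordal graph closed under triangles is everything** -/
theorem closure {E : Fin m → Fin m → Prop} (hE : Ch E) {S : Fin m → Fin m → Prop}
    (hSE : ∀ a b, S a b → E a b) (hsym : ∀ a b, S a b → S b a)
    (htri : ∀ a b c, S a b → S a c → E b c → S b c)
    (hcon : ∀ g : Fin m → Fin m, (∀ a b, S a b → g a = g b) → ∀ a b, g a = g b) :
    ∀ a b, E a b → S a b := by
  classical
  have hP : ∀ j : ℕ, ∀ g : Fin m → Fin m,
      (∀ a b : Fin m, (a : ℕ) + j < m → (b : ℕ) + j < m → S a b → g a = g b) →
      ∀ a b : Fin m, (a : ℕ) + j < m → (b : ℕ) + j < m → g a = g b := by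
    intro j
    induction j with
    | zero =>
      intro g hg a b _ _
      exact hcon g (fun a b h => hg a b a.2 b.2 h) a b
    | succ j ih =>
      intro g hg a b ha hb
      have hv : m - (j + 1) < m := by omega
      obtain ⟨v, hvd⟩ : ∃ v : Fin m, (v : ℕ) + (j + 1) = m := ⟨⟨m - (j + 1), hv⟩, by
        simp only
        omega⟩
      by_cases hw : ∃ w : Fin m, (w : ℕ) + (j + 1) < m ∧ S v w
      · obtain ⟨w, hw1, hw2⟩ := hw
        have hone : ∀ b : Fin m, (b : ℕ) + (j + 1) < m → S v b → g w = g b := by
          intro b hb1 hb2
          by_cases hwb : w = b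
          · rw [hwb]
          apply hg w b hw1 hb1
          apply htri v w b hw2 hb2
          apply hE.clq w b v (Fin.lt_def.2 (by omega)) (Fin.lt_def.2 (by omega)) hwb
            (hE.symm _ _ (hSE _ _ hw2)) (hE.symm _ _ (hSE _ _ hb2))
        have h1 := ih (Function.update g v (g w)) (by
          intro c d hc hd hcd
          by_cases hcv : c = v
          · by_cases hdv : d = v
            · rw [hcv, hdv]
            · rw [hcv, Function.update_self, Function.update_of_ne hdv]
              rw [hcv] at hcd
              apply hone d _ hcd
              have : (d : ℕ) ≠ v := fun h => hdv (Fin.ext h)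
              omega
          · have hc' : (c : ℕ) + (j + 1) < m := by
              have : (c : ℕ) ≠ v := fun h => hcv (Fin.ext h)
              omega
            by_cases hdv : d = v
            · rw [hdv, Function.update_self, Function.update_of_ne hcv]
              rw [hdv] at hcd
              exact (hone c hc' (hsym _ _ hcd)).symm
            · rw [Function.update_of_ne hcv, Function.update_of_ne hdv]
              apply hg c d hc' _ hcd
              have : (d : ℕ) ≠ v := fun h => hdv (Fin.ext h)
              omega) a b (by omega) (by omega)
        rw [Function.update_of_ne, Function.update_of_ne] at h1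
        · exact h1
        · intro h
          rw [h] at hb
          omega
        · intro h
          rw [h] at ha
          omega
      · have h1 := ih (fun c => if c = v then g v else g c) (by
          intro c d hc hd hcd
          by_cases hcv : c = v
          · by_cases hdv : d = v
            · rw [if_pos hcv, if_pos hdv]
            · exfalso
              apply hw
              refine ⟨d, ?_, hcv ▸ hcd⟩
              have : (d : ℕ) ≠ v := fun h => hdv (Fin.ext h)
              omega
          · have hc' : (c : ℕ) + (j + 1) < m := by
              have : (c : ℕ) ≠ v := fun h => hcv (Fin.ext h)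
              omega
            by_cases hdv : d = v
            · exfalso
              apply hw
              exact ⟨c, hc', hdv ▸ hsym _ _ hcd⟩
            · rw [if_neg hcv, if_neg hdv]
              apply hg c d hc' _ hcd
              have : (d : ℕ) ≠ v := fun h => hdv (Fin.ext h)
              omega) a b (by omega) (by omega)
        rw [if_neg, if_neg] at h1
        · exact h1
        · intro h
          rw [h] at hb
          omega
        · intro h
          rw [h] at ha
          omega
  have hQ : ∀ k : ℕ, ∀ a b : Fin m, (a : ℕ) < k → (b : ℕ) < k → E a b → S a b := by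
    intro k
    induction k with
    | zero =>
      intro a b ha
      omega
    | succ k ih =>
      have hlt : ∀ a b : Fin m, (a : ℕ) < b → (b : ℕ) = k → E a b → S a b := by
        intro a b hab hbk hE1
        have hnb : ∃ w : Fin m, w < b ∧ S b w := by
          by_contra hno
          push Not at hno
          have h1 := hP (m - (k + 1)) (fun c => if c = b then b else a) (by
            intro c d hc hd hcd
            have hb2 := b.2
            by_cases hcb : c = b
            · by_cases hdb : d = b
              · rw [if_pos hcb, if_pos hdb]
              · exfalso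
                refine hno d ?_ (hcb ▸ hcd)
                have : (d : ℕ) ≠ b := fun h => hdb (Fin.ext h)
                rw [Fin.lt_def]
                omega
            · by_cases hdb : d = b
              · exfalso
                refine hno c ?_ (hdb ▸ hsym _ _ hcd)
                have : (c : ℕ) ≠ b := fun h => hcb (Fin.ext h)
                rw [Fin.lt_def]
                omega
              · rw [if_neg hcb, if_neg hdb]) a b (by have := b.2; omega) (by have := b.2; omega)
          rw [if_pos rfl, if_neg (fun h => by rw [h] at hab; omega)] at h1
          rw [h1] at hab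
          omega
        obtain ⟨w, hw1, hw2⟩ := hnb
        by_cases hwa : w = a
        · rw [← hwa]
          exact hsym _ _ hw2
        · have hE2 := hE.clq w a b hw1 hab hwa (hE.symm _ _ (hSE _ _ hw2)) hE1
          have hS2 := ih w a (by have := Fin.lt_def.1 hw1; omega) (by omega) hE2
          exact htri w a b hS2 (hsym _ _ hw2) hE1
      intro a b ha hb hab
      rcases Nat.lt_trichotomy (a : ℕ) b with h | h | h
      · rcases Nat.lt_or_ge b k with h1 | h1
        · exact ih a b (by omega) h1 hab
        · exact hlt a b h (by omega) hab
      · exfalso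
        rw [Fin.ext h] at hab
        exact hE.irr _ hab
      · rcases Nat.lt_or_ge a k with h1 | h1
        · exact ih a b h1 (by omega) hab
        · exact hsym _ _ (hlt b a h (by omega) (hE.symm _ _ hab))
  intro a b hab
  exact hQ m a b a.2 b.2 hab

end Pool.Agent.H583.ST
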