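import Pool.Agent.H583.ST.B

/-!
Configurations of integers attached to a graph: the radicals of the differences along a connected set of
edges determine the configuration up to few possibilities.
-/

set_option autoImplicit false

namespace Pool.Agent.H583.ST

open Finset Pool.Agent.T2H20.ABC Pool.Agent.T2H20.AH Pool.Agent.H785R2.ABC Pool.Agent.H583.SF
  Pool.Agent.H583.WT Pool.Agent.H583.AL Pool.Agent.H583.AR Pool.Agent.H583.GD Pool.Agent.H583.PD

variable {m : ℕ} {E : Fin m → Fin m → Prop}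

/-- a configuration of integers, the first one is zero, without a common divisor, two of them are
different if they are joined in the graph -/
structure Cg (E : Fin m → Fin m → Prop) (x : Fin m → ℤ) : Prop where
  ne : ∀ i j, E i j → x i ≠ x j
  zero : ∀ i : Fin m, (i : ℕ) = 0 → x i = 0
  gcd : Finset.univ.gcd x = 1

lemma yq {x : Fin m → ℤ} {i j k : Fin m} (h : x i - x j ≠ 0) :
    ∃ c : ℤ, x k - x i = c * (yy i j k x).num ∧ x i - x j = c * (yy i j k x).den ∧
      x k - x j = c * ((yy i j k x).num + (yy i j k x).den) := by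
  obtain ⟨c, h1, h2⟩ := Rat.exists_eq_mul_div_num_and_eq_mul_div_den (x k - x i) h
  refine ⟨c, h1, h2, ?_⟩
  unfold yy
  rw [mul_add, ← h1, ← h2]
  ring

lemma yq0 {x : Fin m → ℤ} {i j k : Fin m} (h : x i - x j ≠ 0) (h2 : x k - x i ≠ 0) :
    yy i j k x ≠ 0 := by
  unfold yy
  have h1 : ((x i - x j : ℤ) : ℚ) ≠ 0 := by exact_mod_cast h
  have h2 : ((x k - x i : ℤ) : ℚ) ≠ 0 := by exact_mod_cast h2
  exact div_ne_zero h2 h1

lemma yq1 {x : Fin m → ℤ} {i j k : Fin m} (h : x i - x j ≠ 0) (h2 : x k - x j ≠ 0) :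
    yy i j k x ≠ -1 := by
  intro h0
  unfold yy at h0
  have h1 : ((x i - x j : ℤ) : ℚ) ≠ 0 := by exact_mod_cast h
  rw [div_eq_iff h1] at h0
  have h2' : x k - x j = 0 := by
    have : (x k : ℚ) - x j = 0 := by
      push_cast at h0
      linarith
    exact_mod_cast this
  exact h2 h2'

/-- the radical of a product depends on the radical of a factor -/
lemma zr_mul_rad {c n : ℤ} (hc : c ≠ 0) (hn : n ≠ 0) : zr (c * n) = rad (zr c * n.natAbs) := by
  have h1 : c.natAbs ≠ 0 := Int.natAbs_ne_zero.2 hc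
  have h2 : n.natAbs ≠ 0 := Int.natAbs_ne_zero.2 hn
  unfold zr
  rw [Int.natAbs_mul]
  unfold rad
  rw [Nat.primeFactors_mul h1 h2]
  have h3 : (∏ p ∈ c.natAbs.primeFactors, p) ≠ 0 := (SF.rad_pos c.natAbs).ne'
  rw [Nat.primeFactors_mul h3 h2]
  have h4 : (∏ p ∈ c.natAbs.primeFactors, p).primeFactors = c.natAbs.primeFactors :=
    WT.primeFactors_rad c.natAbs
  rw [h4]

/-- the sets of configurations such that two radicals of a triangle leave few possibilities for the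
third one and for the ratio of the differences -/
def Tr (E : Fin m → Fin m → Prop) (F : ℕ) (Q : Finset (Fin m → ℤ)) : Prop :=
  ∀ a b c, E a b → E a c → E b c → ∀ r s : ℕ,
    ((Q.filter fun x => zr (x a - x b) = r ∧ zr (x a - x c) = s).image
      fun x => zr (x b - x c)).card ≤ F ∧
    ((Q.filter fun x => zr (x a - x b) = r ∧ zr (x a - x c) = s).image fun x => yy a b c x).card ≤ F

/-- the property of sets of configurations with radicals bounded by `X` -/
theorem tri_le (ε : ℝ) (hε : 0 < ε) : ∃ C : ℝ, 0 < C ∧ ∀ X : ℕ, 1 ≤ X → ∀ (m : ℕ)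
    (E : Fin m → Fin m → Prop) (Q : Finset (Fin m → ℤ)),
    (∀ x ∈ Q, Cg E x ∧ ∀ a b, E a b → zr (x a - x b) ≤ X) →
    ∃ F : ℕ, 1 ≤ F ∧ (F : ℝ) ≤ C * (X : ℝ) ^ ε ∧ Tr E F Q := by
  classical
  obtain ⟨C₁, hC₁, h₁⟩ := two (ε / 6) (by positivity)
  obtain ⟨D, hD, hd⟩ := div_pow 1 (ε / 2) (by positivity)
  refine ⟨(D + 1) * C₁ + 2, by positivity, ?_⟩
  intro X hX m E Q hQ
  have hX1 : (1 : ℝ) ≤ X := by exact_mod_cast hX
  have hX0 : (0 : ℝ) < X := by linarith
  have hXε : 1 ≤ (X : ℝ) ^ ε := Real.one_le_rpow hX1 hε.le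
  have hXε2 : 1 ≤ (X : ℝ) ^ (ε / 2) := Real.one_le_rpow hX1 (by positivity)
  refine ⟨⌊(D + 1) * C₁ * (X : ℝ) ^ ε⌋₊ + 1, by omega, ?_, ?_⟩
  · push_cast
    have := Nat.floor_le (a := (D + 1) * C₁ * (X : ℝ) ^ ε) (by positivity)
    nlinarith
  intro a b c hab hac hbc r s
  obtain ⟨P, hP⟩ : ∃ P, P = Q.filter fun x => zr (x a - x b) = r ∧ zr (x a - x c) = s := ⟨_, rfl⟩
  rw [← hP]
  rcases P.eq_empty_or_nonempty with h0 | ⟨x0, hx0⟩
  · rw [h0]
    simp
  have hPm : ∀ x ∈ P, (x a - x b ≠ 0 ∧ x c - x a ≠ 0 ∧ x c - x b ≠ 0) ∧ zr (x a - x b) = r ∧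
      zr (x a - x c) = s ∧ zr (x b - x c) ≤ X := by
    intro x hx
    rw [hP, mem_filter] at hx
    obtain ⟨⟨g1, -, -⟩, g2⟩ := hQ x hx.1
    refine ⟨⟨sub_ne_zero.2 (g1 a b hab), sub_ne_zero.2 (g1 a c hac).symm,
      sub_ne_zero.2 (g1 b c hbc).symm⟩, hx.2.1, hx.2.2, g2 b c hbc⟩
  have hx0' := hx0
  rw [hP, mem_filter] at hx0'
  have hr1 : 1 ≤ r := by rw [← hx0'.2.1]; exact zr_pos _
  have hs1 : 1 ≤ s := by rw [← hx0'.2.2]; exact zr_pos _
  have hrX : r ≤ X := by rw [← hx0'.2.1]; exact (hQ x0 hx0'.1).2 a b hab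
  have hsX : s ≤ X := by rw [← hx0'.2.2]; exact (hQ x0 hx0'.1).2 a c hac
  have hXX : X ≤ X ^ 3 := Nat.le_self_pow (by norm_num) X
  have hfac : ∀ x ∈ P, zr (yy a b c x).den ∣ r ∧ zr (yy a b c x).num ∣ s ∧
      zr (U (yy a b c x)) ≤ X ^ 3 := by
    intro x hx
    obtain ⟨⟨e1, e2, e3⟩, g1, g2, g3⟩ := hPm x hx
    obtain ⟨d, h1, h2, h3⟩ := yq (k := c) e1
    have f1 : zr (yy a b c x).den ∣ r := by
      rw [← g1]
      exact zr_dvd_of_dvd e1 ⟨d, by rw [h2]; ring⟩
    have f2 : zr (yy a b c x).num ∣ s := by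
      rw [← g2, zr_sub_comm (x a)]
      exact zr_dvd_of_dvd e2 ⟨d, by rw [h1]; ring⟩
    have f3 : zr ((yy a b c x).num + (yy a b c x).den) ≤ X := by
      rw [zr_sub_comm] at g3
      exact (zr_le_of_dvd e3 ⟨d, by rw [h3]; ring⟩).trans g3
    refine ⟨f1, f2, ?_⟩
    have n0 := Rat.num_ne_zero.2 (yq0 e1 e2)
    have n1 := den_ne (yy a b c x)
    have n2 := num_add_ne (yq1 e1 e3)
    calc zr (U (yy a b c x)) ≤ zr ((yy a b c x).num * (yy a b c x).den) *
          zr ((yy a b c x).num + (yy a b c x).den) := zr_mul_le (mul_ne_zero n0 n1) n2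
      _ ≤ (zr (yy a b c x).num * zr (yy a b c x).den) * zr ((yy a b c x).num + (yy a b c x).den) :=
          Nat.mul_le_mul_right _ (zr_mul_le n0 n1)
      _ ≤ (X * X) * X :=
          Nat.mul_le_mul (Nat.mul_le_mul ((Nat.le_of_dvd (by omega) f2).trans hsX)
            ((Nat.le_of_dvd (by omega) f1).trans hrX)) f3
      _ = _ := by ring
  have hY : ((P.image fun x => yy a b c x).card : ℝ) ≤ C₁ * (X : ℝ) ^ (ε / 2) := by
    have h2 := h₁ (X ^ 3) r s hr1 (hrX.trans hXX) hs1 (hsX.trans hXX) (P.image fun x => yy a b c x) (by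
      intro y hy
      rw [mem_image] at hy
      obtain ⟨x, hx, rfl⟩ := hy
      obtain ⟨⟨e1, e2, e3⟩, -⟩ := hPm x hx
      obtain ⟨f1, f2, f3⟩ := hfac x hx
      exact ⟨yq0 e1 e2, yq1 e1 e3, f3, f1, f2⟩)
    refine h2.trans_eq ?_
    push_cast
    rw [← Real.rpow_natCast, ← Real.rpow_mul hX0.le]
    congr 2
    push_cast
    ring
  have hhalf : (X : ℝ) ^ (ε / 2) * (X : ℝ) ^ (ε / 2) = (X : ℝ) ^ ε := by
    rw [← Real.rpow_add hX0, add_halves]
  have hY2 : ((P.image fun x => yy a b c x).card : ℝ) ≤ (D + 1) * C₁ * (X : ℝ) ^ ε := by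
    refine hY.trans ?_
    rw [← hhalf]
    have h3 : C₁ * (X : ℝ) ^ (ε / 2) * 1 ≤ C₁ * (X : ℝ) ^ (ε / 2) * ((D + 1) * (X : ℝ) ^ (ε / 2)) := by
      apply mul_le_mul_of_nonneg_left _ (by positivity)
      nlinarith
    calc C₁ * (X : ℝ) ^ (ε / 2) = C₁ * (X : ℝ) ^ (ε / 2) * 1 := by ring
      _ ≤ _ := h3
      _ = _ := by ring
  have hZ : ((P.image fun x => zr (x b - x c)).card : ℝ) ≤ (D + 1) * C₁ * (X : ℝ) ^ ε := by
    have hsub : (P.image fun x => zr (x b - x c)) ⊆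
        (r.divisors ×ˢ (P.image fun x => yy a b c x)).image
          (fun t => rad (t.1 * (t.2.num + t.2.den).natAbs)) := by
      intro z hz
      rw [mem_image] at hz
      obtain ⟨x, hx, rfl⟩ := hz
      obtain ⟨⟨e1, e2, e3⟩, g1, g2, g3⟩ := hPm x hx
      obtain ⟨d, h1, h2, h3⟩ := yq (k := c) e1
      have hd0 : d ≠ 0 := by
        intro h
        rw [h, zero_mul] at h2
        exact e1 h2
      rw [mem_image]
      refine ⟨(zr d, yy a b c x), ?_, ?_⟩
      · rw [mem_product]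
        refine ⟨?_, mem_image_of_mem _ hx⟩
        rw [Nat.mem_divisors]
        refine ⟨?_, by omega⟩
        rw [← g1]
        exact zr_dvd_of_dvd e1 ⟨_, h2⟩
      · dsimp only
        rw [zr_sub_comm, h3, zr_mul_rad hd0 (num_add_ne (yq1 e1 e3))]
    have h2 := (card_le_card hsub).trans card_image_le
    rw [card_product] at h2
    have h3 := hd X r hr1 hrX
    rw [pow_one] at h3
    calc ((P.image fun x => zr (x b - x c)).card : ℝ) ≤
          ((r.divisors.card * (P.image fun x => yy a b c x).card : ℕ) : ℝ) := by exact_mod_cast h2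
      _ = (r.divisors.card : ℝ) * ((P.image fun x => yy a b c x).card : ℝ) := by push_cast; ring
      _ ≤ (D * (X : ℝ) ^ (ε / 2)) * (C₁ * (X : ℝ) ^ (ε / 2)) :=
          mul_le_mul h3 hY (Nat.cast_nonneg _) (by positivity)
      _ = D * C₁ * ((X : ℝ) ^ (ε / 2) * (X : ℝ) ^ (ε / 2)) := by ring
      _ = D * C₁ * (X : ℝ) ^ ε := by rw [hhalf]
      _ ≤ _ := by
          apply mul_le_mul_of_nonneg_right _ (by positivity)
          nlinarith
  constructor
  · have := Nat.le_floor hZ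
    omega
  · have := Nat.le_floor hY2
    omega

/-- a union over the values of two radicals -/
lemma un {α : Type*} [DecidableEq α] {Q : Finset (Fin m → ℤ)} (g₁ g₂ : (Fin m → ℤ) → ℕ)
    (h : (Fin m → ℤ) → α) {N₁ N₂ F : ℕ} (h1 : (Q.image g₁).card ≤ N₁) (h2 : (Q.image g₂).card ≤ N₂)
    (h3 : ∀ r s, ((Q.filter fun x => g₁ x = r ∧ g₂ x = s).image h).card ≤ F) :
    (Q.image h).card ≤ N₁ * N₂ * F := by
  classical
  have hsub : Q.image h ⊆ ((Q.image g₁) ×ˢ (Q.image g₂)).biUnion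
      (fun t => (Q.filter fun x => g₁ x = t.1 ∧ g₂ x = t.2).image h) := by
    intro z hz
    rw [mem_image] at hz
    obtain ⟨x, hx, rfl⟩ := hz
    rw [mem_biUnion]
    refine ⟨(g₁ x, g₂ x), ?_, ?_⟩
    · rw [mem_product]
      exact ⟨mem_image_of_mem _ hx, mem_image_of_mem _ hx⟩
    · rw [mem_image]
      exact ⟨x, by rw [mem_filter]; exact ⟨hx, rfl, rfl⟩, rfl⟩
  refine (card_le_card hsub).trans ?_
  refine (card_biUnion_le_card_mul _ _ F fun t _ => h3 t.1 t.2).trans ?_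
  rw [card_product]
  exact Nat.mul_le_mul_right _ (Nat.mul_le_mul h1 h2)

/-- the configuration is determined by the ratios up to the sign -/
lemma rec_inj (hE : Ch E) {x z : Fin m → ℤ} (hx : Cg E x) (hz : Cg E z) (I J : Fin m → Fin m)
    (hIJ : ∀ k : Fin m, 2 ≤ (k : ℕ) → I k < k ∧ J k < k ∧ E (I k) (J k))
    (h : ∀ k : Fin m, 2 ≤ (k : ℕ) → yy (I k) (J k) k x = yy (I k) (J k) k z)
    (hm : 1 < m) (hs : 0 < x ⟨1, hm⟩ ↔ 0 < z ⟨1, hm⟩) : x = z := by
  obtain ⟨x1, hx1⟩ : ∃ x1, x1 = x ⟨1, hm⟩ := ⟨_, rfl⟩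
  obtain ⟨z1, hz1⟩ : ∃ z1, z1 = z ⟨1, hm⟩ := ⟨_, rfl⟩
  rw [← hx1, ← hz1] at hs
  have hE01 : E ⟨0, by omega⟩ ⟨1, hm⟩ := hE.edge _ _ rfl rfl
  have x10 : x1 ≠ 0 := by
    have := hx.ne _ _ hE01
    rw [hx.zero ⟨0, by omega⟩ rfl, ← hx1] at this
    exact this.symm
  have hrec : ∀ n : ℕ, ∀ k : Fin m, (k : ℕ) < n → z1 * x k = x1 * z k := by
    intro n
    induction n with
    | zero =>
      intro k hk
      omega
    | succ n ih =>
      intro k hk
      rcases Nat.lt_or_ge (k : ℕ) 2 with h2 | h2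
      · rcases Nat.lt_or_ge (k : ℕ) 1 with h1 | h1
        · rw [hx.zero k (by omega), hz.zero k (by omega), mul_zero, mul_zero]
        · have : k = ⟨1, hm⟩ := Fin.ext (by simp only; omega)
          rw [this, ← hx1, ← hz1]
          ring
      · obtain ⟨a1, a2, a3⟩ := hIJ k h2
        have b1 := ih (I k) (by have := Fin.lt_def.1 a1; omega)
        have b2 := ih (J k) (by have := Fin.lt_def.1 a2; omega)
        have b3 := h k h2
        have c1 : ((x (I k) - x (J k) : ℤ) : ℚ) ≠ 0 := by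
          exact_mod_cast sub_ne_zero.2 (hx.ne _ _ a3)
        have c2 : ((z (I k) - z (J k) : ℤ) : ℚ) ≠ 0 := by
          exact_mod_cast sub_ne_zero.2 (hz.ne _ _ a3)
        unfold yy at b3
        rw [div_eq_div_iff c1 c2] at b3
        have b4 : (x k - x (I k)) * (z (I k) - z (J k)) = (z k - z (I k)) * (x (I k) - x (J k)) := by
          exact_mod_cast b3
        apply mul_right_cancel₀ (sub_ne_zero.2 (hz.ne _ _ a3))
        linear_combination z1 * b4 + (z (I k) - z (J k)) * b1 + (z k - z (I k)) * (b1 - b2)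
  have h2 : ∀ k, z1 * x k = x1 * z k := fun k => hrec m k k.2
  have g1 : Finset.univ.gcd (fun k => z1 * x k) = normalize z1 := by
    rw [Finset.gcd_mul_left, hx.gcd, mul_one]
  have g2 : Finset.univ.gcd (fun k => x1 * z k) = normalize x1 := by
    rw [Finset.gcd_mul_left, hz.gcd, mul_one]
  have g3 : normalize z1 = normalize x1 := by
    rw [← g1, ← g2]
    congr 1
    funext k
    exact h2 k
  rw [← Int.abs_eq_normalize, ← Int.abs_eq_normalize] at g3
  rcases abs_eq_abs.1 g3 with g | g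
  · funext k
    have h3 := h2 k
    rw [g] at h3
    exact mul_left_cancel₀ x10 h3
  · exfalso
    rw [g] at hs
    omega

/-- **the radicals of the differences along a connected set of edges leave few possibilities** -/
theorem known (hE : Ch E) (hm : 2 ≤ m) (B : Finset (Fin m × Fin m)) (hB : ∀ p ∈ B, E p.1 p.2)
    (hcon : ∀ g : Fin m → Fin m, (∀ p ∈ B, g p.1 = g p.2) → ∀ a b, g a = g b) :
    ∃ K : ℕ, ∀ (F : ℕ) (Q : Finset (Fin m → ℤ)), 1 ≤ F → Tr E F Q → (∀ x ∈ Q, Cg E x) →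
      (∀ p ∈ B, (Q.image fun x => zr (x p.1 - x p.2)).card ≤ 1) → Q.card ≤ 2 * F ^ K := by
  classical
  have hkn : ∀ a b, E a b → (E a b ∧ ∃ k : ℕ, ∀ (F : ℕ) (Q : Finset (Fin m → ℤ)), 1 ≤ F → Tr E F Q →
      (∀ x ∈ Q, Cg E x) → (∀ p ∈ B, (Q.image fun x => zr (x p.1 - x p.2)).card ≤ 1) →
      (Q.image fun x => zr (x a - x b)).card ≤ F ^ k) := by
    apply closure hE (S := fun a b => E a b ∧ ∃ k : ℕ, ∀ (F : ℕ) (Q : Finset (Fin m → ℤ)), 1 ≤ F →
      Tr E F Q → (∀ x ∈ Q, Cg E x) → (∀ p ∈ B, (Q.image fun x => zr (x p.1 - x p.2)).card ≤ 1) →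
      (Q.image fun x => zr (x a - x b)).card ≤ F ^ k)
    · exact fun a b h => h.1
    · rintro a b ⟨h1, k, hk⟩
      refine ⟨hE.symm _ _ h1, k, ?_⟩
      intro F Q hF hT hQ hB1
      have h2 : (Q.image fun x => zr (x b - x a)) = Q.image fun x => zr (x a - x b) := by
        congr 1
        funext x
        exact zr_sub_comm _ _
      rw [h2]
      exact hk F Q hF hT hQ hB1
    · rintro a b c ⟨h1, k1, hk1⟩ ⟨h2, k2, hk2⟩ h3
      refine ⟨h3, k1 + k2 + 1, ?_⟩
      intro F Q hF hT hQ hB1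
      rw [pow_succ, pow_add]
      exact un _ _ _ (hk1 F Q hF hT hQ hB1) (hk2 F Q hF hT hQ hB1)
        fun r s => (hT a b c h1 h2 h3 r s).1
    · intro g hg
      apply hcon g
      intro p hp
      apply hg
      refine ⟨hB p hp, 0, ?_⟩
      intro F Q hF hT hQ hB1
      rw [pow_zero]
      exact hB1 p hp
  have hIJ : ∀ k : Fin m, ∃ i j : Fin m, 2 ≤ (k : ℕ) → (i < k ∧ j < k ∧ E i j) ∧ E i k ∧ E j k := by
    intro k
    by_cases hk : 2 ≤ (k : ℕ)
    · obtain ⟨i, j, h1, h2, h3, h4, h5⟩ := hE.two k hk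
      exact ⟨i, j, fun _ => ⟨⟨h1, h2, hE.clq i j k h1 h2 h3 h4 h5⟩, h4, h5⟩⟩
    · exact ⟨k, k, fun h => absurd h hk⟩
  choose I J hIJ using hIJ
  have hK : ∀ k : Fin m, ∃ n : ℕ, ∀ (F : ℕ) (Q : Finset (Fin m → ℤ)), 1 ≤ F → Tr E F Q →
      (∀ x ∈ Q, Cg E x) → (∀ p ∈ B, (Q.image fun x => zr (x p.1 - x p.2)).card ≤ 1) →
      (Q.image fun x => if 2 ≤ (k : ℕ) then yy (I k) (J k) k x else 0).card ≤ F ^ n := by
    intro k
    by_cases hk : 2 ≤ (k : ℕ)
    · obtain ⟨⟨h1, h2, h3⟩, h4, h5⟩ := hIJ k hk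
      obtain ⟨-, k1, hk1⟩ := hkn (I k) (J k) h3
      obtain ⟨-, k2, hk2⟩ := hkn (I k) k h4
      refine ⟨k1 + k2 + 1, ?_⟩
      intro F Q hF hT hQ hB1
      simp only [if_pos hk]
      rw [pow_succ, pow_add]
      exact un _ _ _ (hk1 F Q hF hT hQ hB1) (hk2 F Q hF hT hQ hB1)
        fun r s => (hT (I k) (J k) k h3 h4 h5 r s).2
    · refine ⟨0, ?_⟩
      intro F Q hF hT hQ hB1
      simp only [if_neg hk]
      rw [pow_zero]
      refine (card_le_card (t := {0}) ?_).trans (by simp)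
      intro y hy
      rw [mem_image] at hy
      obtain ⟨x, -, rfl⟩ := hy
      exact mem_singleton_self _
  choose N hN using hK
  refine ⟨∑ k, N k, ?_⟩
  intro F Q hF hT hQ hB1
  have hm1 : 1 < m := by omega
  have hc : Q.card ≤ ((Fintype.piFinset fun k : Fin m =>
      Q.image fun x => if 2 ≤ (k : ℕ) then yy (I k) (J k) k x else 0) ×ˢ
        (univ : Finset Bool)).card := by
    apply Finset.card_le_card_of_injOn (fun x => (fun k : Fin m =>
      (if 2 ≤ (k : ℕ) then yy (I k) (J k) k x else 0 : ℚ), decide (0 < x ⟨1, hm1⟩)))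
    · intro x hx
      rw [Finset.mem_coe, mem_product, Fintype.mem_piFinset]
      exact ⟨fun k => mem_image_of_mem _ hx, mem_univ _⟩
    · intro x hx z hz hxz
      simp only [Prod.mk.injEq] at hxz
      apply rec_inj hE (hQ x hx) (hQ z hz) I J (fun k hk => (hIJ k hk).1) _ hm1 (by
        have := hxz.2
        rwa [decide_eq_decide] at this)
      intro k hk
      have := congrFun hxz.1 k
      rwa [if_pos hk, if_pos hk] at this
  rw [card_product, Fintype.card_piFinset] at hc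
  refine hc.trans ?_
  rw [Finset.card_univ, Fintype.card_bool, mul_comm, ← Finset.prod_pow_eq_pow_sum]
  apply Nat.mul_le_mul_left
  exact Finset.prod_le_prod' fun k _ => hN k F Q hF hT hQ hB1

end Pool.Agent.H583.ST
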