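import Pool.Agent.H583.ST.C

/-!
The number of configurations with radicals in a dyadic box, and the convergence of the sum.
-/

set_option autoImplicit false

namespace Pool.Agent.H583.ST

open Finset Pool.Agent.T2H20.ABC Pool.Agent.T2H20.AH Pool.Agent.H785R2.ABC Pool.Agent.H583.SF
  Pool.Agent.H583.WT Pool.Agent.H583.AL Pool.Agent.H583.AR Pool.Agent.H583.GD Pool.Agent.H583.PD

variable {m : ℕ} {E : Fin m → Fin m → Prop}

open Classical in
/-- the edges of the graph -/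
noncomputable def eds (E : Fin m → Fin m → Prop) : Finset (Fin m × Fin m) :=
  univ.filter fun p => p.1 < p.2 ∧ E p.1 p.2

lemma mem_eds {p : Fin m × Fin m} : p ∈ eds E ↔ p.1 < p.2 ∧ E p.1 p.2 := by
  classical
  unfold eds
  simp only [mem_filter, mem_univ, true_and]

/-- the number of configurations in a dyadic box, through a connected set of edges -/
theorem cls_one (hE : Ch E) (hm : 2 ≤ m) (B : Finset (Fin m × Fin m)) (hB : B ⊆ eds E)
    (hcon : Con id B) (ε : ℝ) (hε : 0 < ε) : ∃ C : ℝ, 0 < C ∧ ∀ (u : Fin m × Fin m → ℕ)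
    (Q : Finset (Fin m → ℤ)), (∀ x ∈ Q, Cg E x ∧ ∀ p ∈ eds E, Nat.log 2 (zr (x p.1 - x p.2)) = u p) →
      (Q.card : ℝ) ≤ C * (2 : ℝ) ^ (∑ p ∈ B, (u p : ℝ)) * (2 : ℝ) ^ (ε * ∑ p ∈ eds E, (u p : ℝ)) := by
  classical
  obtain ⟨K, hK⟩ := known hE hm B (fun p hp => (mem_eds.1 (hB hp)).2)
    (fun g hg a b => hcon g (fun a b h => by rw [show a = b from h]) hg a b)
  obtain ⟨C₁, hC₁, h₁⟩ := tri_le (ε / (K + 1)) (by positivity)
  refine ⟨2 * C₁ ^ K * 2 ^ ε * 2 ^ B.card, by positivity, ?_⟩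
  intro u Q hQ
  obtain ⟨U, hU⟩ : ∃ U : ℕ, U = ∑ p ∈ eds E, u p := ⟨_, rfl⟩
  obtain ⟨X, hX⟩ : ∃ X : ℕ, X = 2 ^ (U + 1) := ⟨_, rfl⟩
  have hX1 : 1 ≤ X := by rw [hX]; exact Nat.one_le_two_pow
  have hXr : (1 : ℝ) ≤ X := by exact_mod_cast hX1
  have hX0 : (0 : ℝ) < X := by linarith
  have hlt : ∀ x ∈ Q, ∀ p ∈ eds E, zr (x p.1 - x p.2) < 2 ^ (u p + 1) := by
    intro x hx p hp
    rw [← (hQ x hx).2 p hp]
    exact Nat.lt_pow_succ_log_self (by norm_num) _
  have hzX : ∀ x ∈ Q, ∀ a b, E a b → zr (x a - x b) ≤ X := by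
    have key : ∀ x ∈ Q, ∀ a b, a < b → E a b → zr (x a - x b) ≤ X := by
      intro x hx a b hab hE1
      have hp : ((a, b) : Fin m × Fin m) ∈ eds E := mem_eds.2 ⟨hab, hE1⟩
      refine (hlt x hx (a, b) hp).le.trans ?_
      rw [hX]
      apply Nat.pow_le_pow_right (by norm_num)
      have : u (a, b) ≤ U := by
        rw [hU]
        exact Finset.single_le_sum (f := u) (fun _ _ => Nat.zero_le _) hp
      omega
    intro x hx a b hab
    rcases lt_trichotomy a b with h | h | h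
    · exact key x hx a b h hab
    · rw [h] at hab
      exact absurd hab (hE.irr _)
    · rw [zr_sub_comm]
      exact key x hx b a h (hE.symm _ _ hab)
  -- the fibres
  obtain ⟨Φ, hΦ⟩ : ∃ Φ : (Fin m → ℤ) → (Fin m × Fin m → ℕ),
    Φ = fun x p => if p ∈ B then zr (x p.1 - x p.2) else 0 := ⟨_, rfl⟩
  have hfib : ∀ v ∈ Q.image Φ, ((Q.filter fun x => Φ x = v).card : ℝ) ≤ 2 * C₁ ^ K * (X : ℝ) ^ ε := by
    intro v hv
    obtain ⟨P, hP⟩ : ∃ P, P = Q.filter fun x => Φ x = v := ⟨_, rfl⟩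
    rw [← hP]
    have hPQ : ∀ x ∈ P, x ∈ Q ∧ Φ x = v := fun x hx => by
      rw [hP, mem_filter] at hx
      exact hx
    obtain ⟨F, hF1, hF2, hF3⟩ := h₁ X hX1 m E P
      (fun x hx => ⟨(hQ x (hPQ x hx).1).1, hzX x (hPQ x hx).1⟩)
    have h2 := hK F P hF1 hF3 (fun x hx => (hQ x (hPQ x hx).1).1) (by
      intro p hp
      refine (card_le_card (t := {v p}) ?_).trans (by simp)
      intro z hz
      rw [mem_image] at hz
      obtain ⟨x, hx, rfl⟩ := hz
      rw [mem_singleton, ← (hPQ x hx).2, hΦ]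
      dsimp only
      rw [if_pos hp])
    calc (P.card : ℝ) ≤ ((2 * F ^ K : ℕ) : ℝ) := by exact_mod_cast h2
      _ = 2 * (F : ℝ) ^ K := by push_cast; ring
      _ ≤ 2 * (C₁ * (X : ℝ) ^ (ε / (K + 1))) ^ K := by
          apply mul_le_mul_of_nonneg_left _ (by norm_num)
          exact pow_le_pow_left₀ (Nat.cast_nonneg _) hF2 K
      _ = 2 * C₁ ^ K * (X : ℝ) ^ (ε / (K + 1) * K) := by
          rw [mul_pow, ← Real.rpow_natCast ((X : ℝ) ^ (ε / (K + 1))), ← Real.rpow_mul hX0.le, mul_assoc]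
      _ ≤ 2 * C₁ ^ K * (X : ℝ) ^ ε := by
          apply mul_le_mul_of_nonneg_left _ (by positivity)
          apply Real.rpow_le_rpow_of_exponent_le hXr
          rw [div_mul_eq_mul_div, div_le_iff₀ (by positivity)]
          nlinarith
  have him : (Q.image Φ).card ≤ 2 ^ (∑ p ∈ B, u p + B.card) := by
    have hsub : Q.image Φ ⊆ Fintype.piFinset fun p : Fin m × Fin m =>
        if p ∈ B then range (2 ^ (u p + 1)) else {0} := by
      intro v hv
      rw [mem_image] at hv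
      obtain ⟨x, hx, rfl⟩ := hv
      rw [Fintype.mem_piFinset]
      intro p
      rw [hΦ]
      dsimp only
      split_ifs with hp
      · rw [mem_range]
        exact hlt x hx p (hB hp)
      · exact mem_singleton_self _
    refine (card_le_card hsub).trans_eq ?_
    rw [Fintype.card_piFinset]
    have h1 : ∀ p : Fin m × Fin m, (if p ∈ B then range (2 ^ (u p + 1)) else {0} : Finset ℕ).card =
        if p ∈ B then 2 ^ (u p + 1) else 1 := by
      intro p
      split_ifs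
      · rw [card_range]
      · rw [card_singleton]
    rw [Finset.prod_congr rfl fun p _ => h1 p, Finset.prod_ite_mem, Finset.univ_inter,
      Finset.prod_pow_eq_pow_sum, Finset.sum_add_distrib]
    simp
  have h3 : (Q.card : ℝ) ≤ ((Q.image Φ).card : ℝ) * (2 * C₁ ^ K * (X : ℝ) ^ ε) := by
    rw [Finset.card_eq_sum_card_image Φ Q]
    push_cast
    refine (Finset.sum_le_sum hfib).trans_eq ?_
    rw [Finset.sum_const, nsmul_eq_mul]
  have hXε : (X : ℝ) ^ ε = 2 ^ ε * (2 : ℝ) ^ (ε * ∑ p ∈ eds E, (u p : ℝ)) := by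
    rw [hX, hU]
    push_cast
    rw [← Real.rpow_natCast, ← Real.rpow_mul (by norm_num), ← Real.rpow_add (by norm_num)]
    congr 1
    push_cast
    ring
  have him2 : ((Q.image Φ).card : ℝ) ≤ 2 ^ B.card * (2 : ℝ) ^ (∑ p ∈ B, (u p : ℝ)) := by
    calc ((Q.image Φ).card : ℝ) ≤ ((2 ^ (∑ p ∈ B, u p + B.card) : ℕ) : ℝ) := by exact_mod_cast him
      _ = _ := by
          push_cast
          rw [pow_add, mul_comm]
          congr 1
          rw [← Real.rpow_natCast]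
          push_cast
          rfl
  calc (Q.card : ℝ) ≤ ((Q.image Φ).card : ℝ) * (2 * C₁ ^ K * (X : ℝ) ^ ε) := h3
    _ ≤ (2 ^ B.card * (2 : ℝ) ^ (∑ p ∈ B, (u p : ℝ))) * (2 * C₁ ^ K * (X : ℝ) ^ ε) :=
        mul_le_mul_of_nonneg_right him2 (by positivity)
    _ = _ := by
        rw [hXε]
        ring

/-- the term of a configuration -/
noncomputable def term (E : Fin m → Fin m → Prop) (s : Fin m × Fin m → ℝ) (x : Fin m → ℤ) : ℝ :=
  ∏ p ∈ eds E, (zr (x p.1 - x p.2) : ℝ) ^ (-s p)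

lemma term_nonneg (s : Fin m × Fin m → ℝ) (x : Fin m → ℤ) : 0 ≤ term E s x :=
  Finset.prod_nonneg fun _ _ => Real.rpow_nonneg (Nat.cast_nonneg _) _

/-- **convergence** -/
theorem conv (hE : Ch E) (hm : 2 ≤ m) (s : Fin m × Fin m → ℝ) (hs : ∀ p ∈ eds E, 0 < s p)
    (H : ∀ f : Fin m → Fin m, 2 ≤ cls f → (cls f : ℝ) - 1 < ∑ p ∈ crs (eds E) f, s p) :
    ∃ C : ℝ, ∀ Q : Finset (Fin m → ℤ), (∀ x ∈ Q, Cg E x) → ∑ x ∈ Q, term E s x ≤ C := by
  classical
  -- a uniform `δ`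
  obtain ⟨δ, hδ, Hδ⟩ : ∃ δ : ℝ, 0 < δ ∧ ∀ f : Fin m → Fin m, 2 ≤ cls f →
      (1 + δ) * ((cls f : ℝ) - 1) ≤ ∑ p ∈ crs (eds E) f, s p := by
    obtain ⟨d, hd⟩ : ∃ d : (Fin m → Fin m) → ℝ, d = fun f => if 2 ≤ cls f then
      (∑ p ∈ crs (eds E) f, s p) / ((cls f : ℝ) - 1) - 1 else 1 := ⟨_, rfl⟩
    obtain ⟨f₀, -, hf₀⟩ := Finset.exists_min_image univ d ⟨id, mem_univ _⟩
    have hpos : ∀ f, 0 < d f := by
      intro f
      rw [hd]
      dsimp only
      split_ifs with h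
      · have h2 : (2 : ℝ) ≤ cls f := by exact_mod_cast h
        have h3 : 0 < (cls f : ℝ) - 1 := by linarith
        have h4 := H f h
        rw [sub_pos, lt_div_iff₀ h3]
        linarith
      · exact one_pos
    refine ⟨d f₀, hpos f₀, ?_⟩
    intro f hf
    have h1 := hf₀ f (mem_univ _)
    have h2 : (2 : ℝ) ≤ cls f := by exact_mod_cast hf
    have h3 : 0 < (cls f : ℝ) - 1 := by linarith
    have h4 : d f = (∑ p ∈ crs (eds E) f, s p) / ((cls f : ℝ) - 1) - 1 := by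
      rw [hd]
      dsimp only
      rw [if_pos hf]
    rw [h4] at h1
    have h5 : 1 + d f₀ ≤ (∑ p ∈ crs (eds E) f, s p) / ((cls f : ℝ) - 1) := by linarith
    rwa [le_div_iff₀ h3] at h5
  have h01 : ((⟨0, by omega⟩, ⟨1, by omega⟩) : Fin m × Fin m) ∈ eds E :=
    mem_eds.2 ⟨Fin.lt_def.2 (by simp), hE.edge _ _ rfl rfl⟩
  obtain ⟨p₀, hp₀, hmin⟩ := Finset.exists_min_image (eds E) s ⟨_, h01⟩
  obtain ⟨σ, hσd⟩ : ∃ σ, σ = s p₀ := ⟨_, rfl⟩
  have hσ : 0 < σ := by rw [hσd]; exact hs p₀ hp₀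
  have hσ' : ∀ p ∈ eds E, σ ≤ s p := fun p hp => by rw [hσd]; exact hmin p hp
  obtain ⟨η, hη⟩ : ∃ η, η = δ * σ / (2 * (1 + δ)) := ⟨_, rfl⟩
  have hη0 : 0 < η := by rw [hη]; positivity
  -- the constants of the sets `B`
  have hcst : ∀ B : Finset (Fin m × Fin m), ∃ C : ℝ, 0 < C ∧ (B ⊆ eds E → Con id B →
      ∀ (u : Fin m × Fin m → ℕ) (Q : Finset (Fin m → ℤ)),
      (∀ x ∈ Q, Cg E x ∧ ∀ p ∈ eds E, Nat.log 2 (zr (x p.1 - x p.2)) = u p) →
      (Q.card : ℝ) ≤ C * (2 : ℝ) ^ (∑ p ∈ B, (u p : ℝ)) * (2 : ℝ) ^ (η * ∑ p ∈ eds E, (u p : ℝ))) := by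
    intro B
    by_cases h : B ⊆ eds E ∧ Con id B
    · obtain ⟨C, hC, h1⟩ := cls_one hE hm B h.1 h.2 η hη0
      exact ⟨C, hC, fun _ _ => h1⟩
    · exact ⟨1, one_pos, fun h1 h2 => absurd ⟨h1, h2⟩ h⟩
  choose C hC hCB using hcst
  obtain ⟨C', hC'⟩ : ∃ C', C' = ∑ B ∈ (eds E).powerset, C B := ⟨_, rfl⟩
  have hCC : ∀ B ⊆ eds E, C B ≤ C' := by
    intro B hB
    rw [hC']
    exact Finset.single_le_sum (f := C) (fun B _ => (hC B).le) (mem_powerset.2 hB)
  have hC'0 : 0 < C' := lt_of_lt_of_le (hC ∅) (hCC ∅ (empty_subset _))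
  obtain ⟨q, hq⟩ : ∃ q : ℝ, q = 2 ^ (-η) := ⟨_, rfl⟩
  have hq0 : 0 < q := by rw [hq]; positivity
  have hq1 : q < 1 := by
    rw [hq]
    exact Real.rpow_lt_one_of_one_lt_of_neg (by norm_num) (by linarith)
  refine ⟨C' * ∏ _p : Fin m × Fin m, (1 - q)⁻¹, ?_⟩
  intro Q hQ
  obtain ⟨Φ, hΦ⟩ : ∃ Φ : (Fin m → ℤ) → (Fin m × Fin m → ℕ),
    Φ = fun x p => if p ∈ eds E then Nat.log 2 (zr (x p.1 - x p.2)) else 0 := ⟨_, rfl⟩
  have hcrs : crs (eds E) id = eds E := by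
    unfold crs
    rw [Finset.filter_eq_self]
    intro p hp
    exact (mem_eds.1 hp).1.ne
  -- a class
  have hclass : ∀ u ∈ Q.image Φ, ∑ x ∈ Q.filter (fun x => Φ x = u), term E s x ≤
      C' * ∏ p : Fin m × Fin m, q ^ u p := by
    intro u hu
    obtain ⟨P, hP⟩ : ∃ P, P = Q.filter fun x => Φ x = u := ⟨_, rfl⟩
    rw [← hP]
    have hPQ : ∀ x ∈ P, x ∈ Q ∧ Φ x = u := fun x hx => by
      rw [hP, mem_filter] at hx
      exact hx
    have hPu : ∀ x ∈ P, ∀ p ∈ eds E, Nat.log 2 (zr (x p.1 - x p.2)) = u p := by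
      intro x hx p hp
      rw [← (hPQ x hx).2, hΦ]
      dsimp only
      rw [if_pos hp]
    obtain ⟨x₁, hx₁⟩ : ∃ x₁, x₁ ∈ P := by
      rw [mem_image] at hu
      obtain ⟨x, hx, hxu⟩ := hu
      exact ⟨x, by rw [hP, mem_filter]; exact ⟨hx, hxu⟩⟩
    have hu0 : ∀ p, p ∉ eds E → u p = 0 := by
      intro p hp
      rw [← (hPQ x₁ hx₁).2, hΦ]
      dsimp only
      rw [if_neg hp]
    have hcid : cls (id : Fin m → Fin m) = (m - 1) + 1 := by
      unfold cls
      rw [Finset.image_id, Finset.card_univ, Fintype.card_fin]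
      omega
    obtain ⟨B, hB1, hB2, -, hB4⟩ := greedy hs hδ.le Hδ (m - 1) id hcid (fun p => (u p : ℝ))
      (fun p _ => Nat.cast_nonneg _)
    rw [hcrs] at hB1 hB4
    have hcard := hCB B hB1 hB2 u P (fun x hx => ⟨hQ x (hPQ x hx).1, hPu x hx⟩)
    have hterm : ∀ x ∈ P, term E s x ≤ (2 : ℝ) ^ (-∑ p ∈ eds E, s p * u p) := by
      intro x hx
      unfold term
      calc ∏ p ∈ eds E, (zr (x p.1 - x p.2) : ℝ) ^ (-s p) ≤
            ∏ p ∈ eds E, (2 : ℝ) ^ (-(s p * u p)) := by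
            apply Finset.prod_le_prod (fun _ _ => Real.rpow_nonneg (Nat.cast_nonneg _) _)
            intro p hp
            have h1 : (2 : ℝ) ^ u p ≤ (zr (x p.1 - x p.2) : ℝ) := by
              rw [← hPu x hx p hp]
              exact_mod_cast Nat.pow_log_le_self 2 (zr_pos _).ne'
            calc (zr (x p.1 - x p.2) : ℝ) ^ (-s p) ≤ ((2 : ℝ) ^ u p) ^ (-s p) :=
                  Real.rpow_le_rpow_of_nonpos (by positivity) h1 (by linarith [hs p hp])
              _ = (2 : ℝ) ^ (-(s p * u p)) := by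
                  rw [← Real.rpow_natCast, ← Real.rpow_mul (by norm_num)]
                  congr 1
                  ring
        _ = _ := by
            rw [← Real.rpow_sum_of_pos (by norm_num), Finset.sum_neg_distrib]
    have h5 : ∑ p ∈ B, (u p : ℝ) ≤ (∑ p ∈ eds E, s p * u p) / (1 + δ) := by
      rw [le_div_iff₀ (by linarith)]
      linarith
    have h6 : σ * ∑ p ∈ eds E, (u p : ℝ) ≤ ∑ p ∈ eds E, s p * u p := by
      rw [Finset.mul_sum]
      apply Finset.sum_le_sum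
      intro p hp
      exact mul_le_mul_of_nonneg_right (hσ' p hp) (Nat.cast_nonneg _)
    obtain ⟨A, hA⟩ : ∃ A : ℝ, A = ∑ p ∈ eds E, (u p : ℝ) := ⟨_, rfl⟩
    obtain ⟨T, hT⟩ : ∃ T : ℝ, T = ∑ p ∈ eds E, s p * u p := ⟨_, rfl⟩
    rw [← hA] at h6 hcard
    rw [← hT] at h5 h6
    have hA0 : 0 ≤ A := by rw [hA]; exact Finset.sum_nonneg fun _ _ => Nat.cast_nonneg _
    have h7 : ∑ p ∈ B, (u p : ℝ) + η * A + -T ≤ -η * A := by
      have h8 : T / (1 + δ) = T - δ / (1 + δ) * T := by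
        field_simp
        ring
      have h9 : δ / (1 + δ) * (σ * A) ≤ δ / (1 + δ) * T :=
        mul_le_mul_of_nonneg_left h6 (by positivity)
      have h10 : δ / (1 + δ) * (σ * A) = 2 * (η * A) := by
        rw [hη]
        field_simp
      linarith
    have hprod : ∏ p : Fin m × Fin m, q ^ u p = (2 : ℝ) ^ (-η * A) := by
      rw [Finset.prod_pow_eq_pow_sum, hq, ← Real.rpow_natCast, ← Real.rpow_mul (by norm_num)]
      congr 2
      rw [hA]
      push_cast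
      symm
      apply Finset.sum_subset (subset_univ _)
      intro p _ hp
      rw [hu0 p hp, Nat.cast_zero]
    calc ∑ x ∈ P, term E s x ≤ ∑ _x ∈ P, (2 : ℝ) ^ (-T) := by
          apply Finset.sum_le_sum
          intro x hx
          rw [hT]
          exact hterm x hx
      _ = (P.card : ℝ) * (2 : ℝ) ^ (-T) := by rw [Finset.sum_const, nsmul_eq_mul]
      _ ≤ (C B * (2 : ℝ) ^ (∑ p ∈ B, (u p : ℝ)) * (2 : ℝ) ^ (η * A)) * (2 : ℝ) ^ (-T) :=
          mul_le_mul_of_nonneg_right hcard (by positivity)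
      _ = C B * (2 : ℝ) ^ (∑ p ∈ B, (u p : ℝ) + η * A + -T) := by
          rw [Real.rpow_add (by norm_num), Real.rpow_add (by norm_num)]
          ring
      _ ≤ C' * (2 : ℝ) ^ (-η * A) :=
          mul_le_mul (hCC B hB1) (Real.rpow_le_rpow_of_exponent_le (by norm_num) h7)
            (by positivity) hC'0.le
      _ = _ := by rw [hprod]
  -- all the classes
  obtain ⟨N, hN⟩ : ∃ N : ℕ, N = (Q.sup fun x => ∑ p, Φ x p) + 1 := ⟨_, rfl⟩
  have hsub : Q.image Φ ⊆ Fintype.piFinset fun _ : Fin m × Fin m => range N := by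
    intro v hv
    rw [mem_image] at hv
    obtain ⟨x, hx, rfl⟩ := hv
    rw [Fintype.mem_piFinset]
    intro p
    rw [mem_range, hN]
    have h1 : Φ x p ≤ ∑ p, Φ x p := Finset.single_le_sum (f := Φ x) (fun _ _ => Nat.zero_le _) (mem_univ p)
    have h2 : ∑ p, Φ x p ≤ Q.sup fun x => ∑ p, Φ x p :=
      Finset.le_sup (f := fun x => ∑ p, Φ x p) hx
    omega
  calc ∑ x ∈ Q, term E s x = ∑ u ∈ Q.image Φ, ∑ x ∈ Q.filter (fun x => Φ x = u), term E s x :=
        (Finset.sum_fiberwise_of_maps_to (fun x hx => mem_image_of_mem Φ hx) _).symm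
    _ ≤ ∑ u ∈ Q.image Φ, C' * ∏ p : Fin m × Fin m, q ^ u p := Finset.sum_le_sum hclass
    _ ≤ ∑ u ∈ Fintype.piFinset fun _ : Fin m × Fin m => range N, C' * ∏ p : Fin m × Fin m, q ^ u p :=
        Finset.sum_le_sum_of_subset_of_nonneg hsub fun u _ _ =>
          mul_nonneg hC'0.le (Finset.prod_nonneg fun _ _ => by positivity)
    _ = C' * ∏ _p : Fin m × Fin m, ∑ j ∈ range N, q ^ j := by
        rw [← Finset.mul_sum, Finset.prod_univ_sum]
    _ ≤ C' * ∏ _p : Fin m × Fin m, (1 - q)⁻¹ := by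
        apply mul_le_mul_of_nonneg_left _ hC'0.le
        apply Finset.prod_le_prod
        · intro p _
          exact Finset.sum_nonneg fun _ _ => by positivity
        · intro p _
          rw [← tsum_geometric_of_lt_one hq0.le hq1]
          exact (summable_geometric_of_lt_one hq0.le hq1).sum_le_tsum _ fun _ _ => by positivity

end Pool.Agent.H583.ST
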