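import Pool.Agent.H583.ST.F

/-!
The sum converges exactly if each labelling is crossed with a large weight.
-/

set_option autoImplicit false

namespace Pool.Agent.H583.ST

open Finset Pool.Agent.H583.SF

variable {m : ℕ} {E : Fin m → Fin m → Prop}

/-- **the sum converges exactly if each labelling is crossed with a large weight** -/
theorem main (hE : Ch E) (hm : 3 ≤ m) (s : Fin m × Fin m → ℝ) (hs : ∀ p ∈ eds E, 0 < s p) :
    (Summable fun x : {x : Fin m → ℤ // Cg E x} => term E s x.1) ↔
    ∀ f : Fin m → Fin m, 2 ≤ cls f → (cls f : ℝ) - 1 < ∑ p ∈ crs (eds E) f, s p := by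
  constructor
  · intro h f hf
    by_contra h1
    exact dvg hE hm s hs f hf (not_lt.1 h1) h
  · intro H
    obtain ⟨C, hC⟩ := conv hE (by omega) s hs H
    obtain ⟨F, hF⟩ : ∃ F : {x : Fin m → ℤ // Cg E x} → ℝ, F = fun x => term E s x.1 := ⟨_, rfl⟩
    have hF0 : 0 ≤ F := by
      intro x
      rw [hF]
      exact term_nonneg (E := E) s x.1
    rw [← hF]
    refine summable_of_sum_le (c := C) hF0 ?_
    intro u
    have h1 := hC (u.map (Function.Embedding.subtype _)) (by
      intro x hx
      rw [mem_map] at hx
      obtain ⟨y, -, rfl⟩ := hx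
      exact y.2)
    rw [Finset.sum_map] at h1
    rw [hF]
    exact h1

end Pool.Agent.H583.ST
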